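import Pool.Agent.Results.MP_70f607_gt.ClopenNotOpen
import Pool.Agent.Helper639.ForceCH

/-!
# MP_70f607_gt: the equivalence is not a theorem of ZFC

(1) Some notion of forcing forces, below each of its conditions, that `ω₁` is preserved and that the
continuum hypothesis holds.
(2) The continuum hypothesis implies that there is a set `X` of irrationals such that `C_p(X)`
satisfies `S₁(Γ_0, Ω_0)` and `X` does not satisfy `S₁(Γ, Ω)`.

So it is consistent with ZFC that the answer to Q1 is negative.
-/

set_option autoImplicit false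

namespace Pool.Agent.Results.MP_70f607_gt.ConsistentlyNot

open Pool.Agent.Helper639.ForceCH (OmegaOnePreserved CHHolds)
open Pool.Agent.Results.MP_70f607_gt.ClopenNotOpen (S1 Gamma Omega CGamma COmega Gamma0 Omega0)

/-- (1) There is a notion of forcing all of whose conditions force that `ω₁` is preserved and that
the continuum hypothesis holds. (2) The continuum hypothesis implies that there is a set `X` of
irrationals such that `C_p(X)` satisfies `S₁(Γ_0, Ω_0)` and `X` satisfies `S₁(C_Γ, C_Ω)`, but `X`
does not satisfy `S₁(Γ, Ω)`. -/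
theorem result :
    (∃ (P : Type) (_ : Preorder P), Nonempty P ∧
      ∀ p : P, p ∈ OmegaOnePreserved P ∧ p ∈ CHHolds P) ∧
    (Cardinal.aleph.{0} 1 = Cardinal.continuum →
      ∃ X : Set ℝ, (∀ x ∈ X, Irrational x) ∧ S1 (Gamma0 X) (Omega0 X) ∧
        S1 (CGamma X) (COmega X) ∧ ¬ S1 (Gamma X) (Omega X)) := by
  refine ⟨?_, fun hCH => ?_⟩
  · obtain ⟨P, i, hn, h⟩ := Pool.Agent.Helper639.ForceCH.exists_forcing
    exact ⟨P, i, hn, fun p => ⟨(h p).1, (h p).2.2⟩⟩
  · exact Pool.Agent.Results.MP_70f607_gt.ClopenNotOpen.result hCH.symm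

end Pool.Agent.Results.MP_70f607_gt.ConsistentlyNot
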